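import Pool.Agent.L7h19.EA.Stm3
import Pool.Agent.L7h24.EA.Bas
import Pool.Agent.L7h41.EA.P3

set_option autoImplicit false

/-! Project EA, parts ZB and TW: balanced families. -/

namespace Pool.Agent.L7h42.EA

open Finset Polynomial Pool.Agent.L7h19.EA
open Pool.Agent.L7h41.EA (f_split quot nd_mul nd_pow nd_two nd_four nd_sixteen dual_c split_ne
  sq_sq_mul sq_mul prime_int f_nd_C_mul f_nd_one)
open Pool.Agent.L7h24.EA (VE)

/-- odd valuation of `b`: some point has a first coordinate of odd valuation -/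
theorem oddAt_of_odd (hT : S_TOR) {p : ℕ} [hp : Fact p.Prime] (hp2 : p ≠ 2) {a m : ℤ} {k : ℕ}
    (hm : ¬ (p : ℤ) ∣ m) (hk : Odd k) : OddAt p a ((p : ℤ) ^ k * m) := by
  have hp0 : (p : ℤ) ≠ 0 := by exact_mod_cast hp.out.ne_zero
  have hm0 : m ≠ 0 := fun h => hm (h ▸ dvd_zero _)
  obtain ⟨j, hj⟩ := hT p a ((p : ℤ) ^ k * m) hp2 (mul_ne_zero (pow_ne_zero k hp0) hm0)
  refine ⟨hp, _, hj, ?_⟩
  have h1 : VE (p := p) (((p : ℤ) ^ k * m : ℤ) : ℚ_[p]) k :=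
    Pool.Agent.L7h24.EA.VE_int (dvd_mul_right _ _) (fun h => by
      rw [pow_succ] at h
      exact hm ((mul_dvd_mul_iff_left (pow_ne_zero k hp0)).1 h))
  have h2 := h1.mul (Pool.Agent.L7h24.EA.VE.prime.pow (2 * j))
  rw [h2.val]
  obtain ⟨i, hi⟩ := hk
  refine ⟨i + j, ?_⟩
  rw [hi]
  push_cast
  ring

/-- good reduction after scaling: no odd valuations -/
theorem not_oddAt_scaled (hS : S_SCL) (h3 : S_N3) {p : ℕ} [Fact p.Prime] (hp2 : p ≠ 2)
    {a b g : ℤ} (hg : g ≠ 0) (hb : ¬ (p : ℤ) ∣ b) (hc : ¬ (p : ℤ) ∣ a ^ 2 - 4 * b) :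
    ¬ OddAt p (g ^ 2 * a) (g ^ 4 * b) := by
  intro h
  have h1 := (hS p a b g false false false hg (h3 p a b false hp2 hb hc)).1.1 h
  exact Bool.false_ne_true h1

theorem s_ZB (hT : S_TOR) (hS : S_SCL) (h3 : S_N3) : S_ZB := by
  intro b f hb hf hd hmod
  obtain ⟨m, b', hbm, hnd, hmax⟩ := f_split hf hb
  have hm4 : m % 4 ≠ 2 := by
    refine hmod m ⟨b', hbm⟩ fun h => ?_
    have := hmax _ h
    omega
  obtain ⟨B, hB⟩ := Pool.Agent.L7h19.RP.large_nd hf hd hnd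
  refine ⟨B + 2, ?_⟩
  intro p hp t hz e1 e2 hne
  have hp2 : p ≠ 2 := by omega
  have hnb' := hB p (by omega) t e1
  obtain ⟨q1, q2⟩ := quot e1 e2
  set φ : ℤ := f.eval t / p with hφ
  have hbt : b.eval t = f.eval t ^ m * b'.eval t := by
    rw [hbm, eval_mul, eval_pow]
  have hf0 : f.eval t ≠ 0 := fun h0 => e2 (by rw [h0]; exact dvd_zero _)
  have ez : (0 : ℤ[X]).eval t = 0 := eval_zero
  rw [ez]
  have hA : (-2 * (0 : ℤ)) = 0 := by norm_num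
  have hC : ((0 : ℤ) ^ 2 - 4 * b.eval t) = -4 * b.eval t := by ring
  rw [hA, hC]
  rcases Nat.even_or_odd m with he | ho
  · -- `m = 4 i`
    obtain ⟨i, hi⟩ : ∃ i, m = 4 * i := by
      obtain ⟨j, hj⟩ := he
      exact ⟨m / 4, by omega⟩
    have hg : f.eval t ^ i ≠ 0 := pow_ne_zero _ hf0
    have hb1 : b.eval t = (f.eval t ^ i) ^ 4 * b'.eval t := by
      rw [hbt, hi, ← pow_mul, mul_comm i 4]
    have e0 : (0 : ℤ) = (f.eval t ^ i) ^ 2 * 0 := by ring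
    have n1 : ¬ OddAt p 0 (b.eval t) := by
      rw [hb1, e0]
      refine not_oddAt_scaled hS h3 hp2 hg hnb' ?_
      have : ((0 : ℤ) ^ 2 - 4 * b'.eval t) = -(4 * b'.eval t) := by ring
      rw [this, dvd_neg]
      exact nd_mul (nd_four hp2) hnb'
    have n2 : ¬ OddAt p 0 (-4 * b.eval t) := by
      have e3 : -4 * b.eval t = (f.eval t ^ i) ^ 4 * (-(4 * b'.eval t)) := by
        rw [hb1]
        ring
      rw [e3, e0]
      refine not_oddAt_scaled hS h3 hp2 hg (by rw [dvd_neg]; exact nd_mul (nd_four hp2) hnb') ?_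
      have : ((0 : ℤ) ^ 2 - 4 * -(4 * b'.eval t)) = 16 * b'.eval t := by ring
      rw [this]
      exact nd_mul (nd_sixteen hp2) hnb'
    exact iff_of_false n1 n2
  · -- `m` odd
    have hb1 : b.eval t = (p : ℤ) ^ m * (φ ^ m * b'.eval t) := by
      rw [hbt, q1]
      ring
    have hb2 : -4 * b.eval t = (p : ℤ) ^ m * (-(4 * (φ ^ m * b'.eval t))) := by
      rw [hb1]
      ring
    have hnd1 : ¬ (p : ℤ) ∣ φ ^ m * b'.eval t := nd_mul (nd_pow q2 m) hnb'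
    rw [hb2, hb1]
    refine iff_of_true (oddAt_of_odd hT hp2 hnd1 ho) (oddAt_of_odd hT hp2 ?_ ho)
    rw [dvd_neg]
    exact nd_mul (nd_four hp2) hnd1

/-- the symbols of two numbers with a square product agree -/
theorem jac_eq_of_isSquare {p : ℕ} [Fact p.Prime] {B C₀ : ℤ} (hB : ¬ (p : ℤ) ∣ B)
    (hC : ¬ (p : ℤ) ∣ C₀) (h : IsSquare (B * C₀)) : sq p B = sq p C₀ := by
  obtain ⟨r, hr⟩ := h
  have hrn : ¬ (p : ℤ) ∣ r := fun h => nd_mul hB hC (hr ▸ h.mul_right _)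
  have h1 := sq_mul hB hC
  have h2 : sq p (B * C₀) = true := by
    rw [hr]
    have h3 := sq_mul hrn hrn
    rw [h3]
    cases sq p r <;> rfl
  rw [h2] at h1
  revert h1
  cases sq p B <;> cases sq p C₀ <;> simp

theorem s_TW (hS : S_SCL) (h3 : S_N3) (h6 : S_N6) : S_TW := by
  intro A B D f hN hsq hD hf hd
  obtain ⟨m, D', hDm, hnd, -⟩ := f_split hf hD
  obtain ⟨B0, hB0⟩ := Pool.Agent.L7h19.RP.large_nd hf hd hnd
  refine ⟨B0 + 2 + (B * (A ^ 2 - 4 * B)).natAbs, ?_⟩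
  intro p hp t hz e1 e2 hne
  have hp2 : p ≠ 2 := by omega
  have hnD := hB0 p (by omega) t e1
  have hpN : ¬ (p : ℤ) ∣ B * (A ^ 2 - 4 * B) := by
    intro h
    have := Nat.le_of_dvd (Int.natAbs_pos.2 hN) (Int.natCast_dvd.1 h)
    omega
  have hpB : ¬ (p : ℤ) ∣ B := fun h => hpN (h.mul_right _)
  have hpC : ¬ (p : ℤ) ∣ A ^ 2 - 4 * B := fun h => hpN (h.mul_left _)
  obtain ⟨q1, q2⟩ := quot e1 e2
  set φ : ℤ := f.eval t / p with hφ
  have hf0 : f.eval t ≠ 0 := fun h0 => e2 (by rw [h0]; exact dvd_zero _)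
  have hDt : D.eval t = f.eval t ^ m * D'.eval t := by
    rw [hDm, eval_mul, eval_pow]
  have ea : (C A * D).eval t = A * D.eval t := by simp
  have eb : (C B * D ^ 2).eval t = B * D.eval t ^ 2 := by simp
  rw [ea, eb]
  rcases Nat.even_or_odd m with he | ho
  · obtain ⟨i, hi⟩ := he
    have hg : f.eval t ^ i ≠ 0 := pow_ne_zero _ hf0
    have hD1 : D.eval t = (f.eval t ^ i) ^ 2 * D'.eval t := by
      rw [hDt, hi, ← two_mul, ← pow_mul, mul_comm i 2]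
    set g : ℤ := f.eval t ^ i with hgdef
    set E : ℤ := D'.eval t with hE
    have n1 : ¬ OddAt p (A * D.eval t) (B * D.eval t ^ 2) := by
      have e3 : A * D.eval t = g ^ 2 * (A * E) := by rw [hD1]; ring
      have e4 : B * D.eval t ^ 2 = g ^ 4 * (B * E ^ 2) := by rw [hD1]; ring
      rw [e3, e4]
      refine not_oddAt_scaled hS h3 hp2 hg (nd_mul hpB (nd_pow hnD 2)) ?_
      have : (A * E) ^ 2 - 4 * (B * E ^ 2) = (A ^ 2 - 4 * B) * E ^ 2 := by ring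
      rw [this]
      exact nd_mul hpC (nd_pow hnD 2)
    have n2 : ¬ OddAt p (-2 * (A * D.eval t)) ((A * D.eval t) ^ 2 - 4 * (B * D.eval t ^ 2)) := by
      have e3 : -2 * (A * D.eval t) = g ^ 2 * (-2 * A * E) := by rw [hD1]; ring
      have e4 : (A * D.eval t) ^ 2 - 4 * (B * D.eval t ^ 2) =
          g ^ 4 * ((A ^ 2 - 4 * B) * E ^ 2) := by rw [hD1]; ring
      rw [e3, e4]
      refine not_oddAt_scaled hS h3 hp2 hg (nd_mul hpC (nd_pow hnD 2)) ?_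
      have : (-2 * A * E) ^ 2 - 4 * ((A ^ 2 - 4 * B) * E ^ 2) = 16 * (B * E ^ 2) := by ring
      rw [this]
      exact nd_mul (nd_sixteen hp2) (nd_mul hpB (nd_pow hnD 2))
    exact iff_of_false n1 n2
  · obtain ⟨i, hi⟩ := ho
    have hg : f.eval t ^ i ≠ 0 := pow_ne_zero _ hf0
    have hD1 : D.eval t = (f.eval t ^ i) ^ 2 * (p * (φ * D'.eval t)) := by
      rw [hDt, hi, pow_succ, mul_comm 2 i, pow_mul]
      rw [mul_assoc]
      congr 1
      conv_lhs => rw [q1]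
      ring
    set g : ℤ := f.eval t ^ i with hgdef
    set E : ℤ := φ * D'.eval t with hE
    have hnE : ¬ (p : ℤ) ∣ E := nd_mul q2 hnD
    have hp0 : (p : ℤ) ≠ 0 := by exact_mod_cast hp.out.ne_zero
    have hp3 : ∀ x : ℤ, ¬ (p : ℤ) ∣ x → ¬ (p : ℤ) ^ 3 ∣ (p : ℤ) ^ 2 * x := by
      intro x hx h
      rw [pow_succ (p : ℤ) 2] at h
      exact hx ((mul_dvd_mul_iff_left (pow_ne_zero 2 hp0)).1 h)
    have hdiv : ∀ x : ℤ, (p : ℤ) ^ 2 * x / (p : ℤ) ^ 2 = x := fun x =>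
      Int.mul_ediv_cancel_left x (pow_ne_zero 2 hp0)
    have n1 : OddAt p (A * D.eval t) (B * D.eval t ^ 2) ↔ sq p (A ^ 2 - 4 * B) = true := by
      have e3 : A * D.eval t = g ^ 2 * (A * (p * E)) := by rw [hD1]; ring
      have e4 : B * D.eval t ^ 2 = g ^ 4 * ((p : ℤ) ^ 2 * (B * E ^ 2)) := by rw [hD1]; ring
      have e5 : (A * (p * E)) ^ 2 - 4 * ((p : ℤ) ^ 2 * (B * E ^ 2)) =
          (p : ℤ) ^ 2 * (E ^ 2 * (A ^ 2 - 4 * B)) := by ring
      have h := h6 p (A * (p * E)) ((p : ℤ) ^ 2 * (B * E ^ 2)) hp2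
        (Dvd.intro (A * E) (by ring)) (dvd_mul_right _ _)
        (hp3 _ (nd_mul hpB (nd_pow hnE 2)))
        (by rw [e5]; exact hp3 _ (nd_mul (nd_pow hnE 2) hpC))
      have h' := (hS p _ _ g _ _ _ hg h).1
      rw [e3, e4, h', e5, hdiv, sq_sq_mul _ hnE]
    have n2 : OddAt p (-2 * (A * D.eval t)) ((A * D.eval t) ^ 2 - 4 * (B * D.eval t ^ 2)) ↔
        sq p B = true := by
      have e3 : -2 * (A * D.eval t) = g ^ 2 * (-2 * A * (p * E)) := by rw [hD1]; ring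
      have e4 : (A * D.eval t) ^ 2 - 4 * (B * D.eval t ^ 2) =
          g ^ 4 * ((p : ℤ) ^ 2 * ((A ^ 2 - 4 * B) * E ^ 2)) := by rw [hD1]; ring
      have e5 : (-2 * A * (p * E)) ^ 2 - 4 * ((p : ℤ) ^ 2 * ((A ^ 2 - 4 * B) * E ^ 2)) =
          (p : ℤ) ^ 2 * ((4 * E) ^ 2 * B) := by ring
      have h4E : ¬ (p : ℤ) ∣ 4 * E := nd_mul (nd_four hp2) hnE
      have h := h6 p (-2 * A * (p * E)) ((p : ℤ) ^ 2 * ((A ^ 2 - 4 * B) * E ^ 2)) hp2
        (Dvd.intro (-2 * A * E) (by ring)) (dvd_mul_right _ _)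
        (hp3 _ (nd_mul hpC (nd_pow hnE 2)))
        (by rw [e5]; exact hp3 _ (nd_mul (nd_pow h4E 2) hpB))
      have h' := (hS p _ _ g _ _ _ hg h).1
      rw [e3, e4, h', e5, hdiv, sq_sq_mul _ h4E]
    rw [n1, n2, jac_eq_of_isSquare hpB hpC hsq]

end Pool.Agent.L7h42.EA
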